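import Pool.Agent.Y404.GccBounds

set_option autoImplicit false

namespace Pool.Agent.Results.MP_23961f_co.CoreBound

open Pool.Agent.Y404.GccSap Pool.Agent.Y404.GccBounds

/-- `A` is a real positive semidefinite matrix whose off-diagonal nonzero pattern is exactly the
edge set of `G` and which has the Strong Arnold Property. -/
def IsNuMatrix {n : ℕ} (G : SimpleGraph (Fin n)) (A : Matrix (Fin n) (Fin n) ℝ) : Prop :=
  A.PosSemidef ∧
  (∀ i j : Fin n, i ≠ j → (A i j ≠ 0 ↔ G.Adj i j)) ∧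
  (∀ X : Matrix (Fin n) (Fin n) ℝ, X.IsSymm →
    (∀ i j : Fin n, (i = j ∨ G.Adj i j) → X i j = 0) → A * X = 0 → X = 0)

/-- The parameter `ν(G)`: the largest nullity of a positive semidefinite matrix in `S(G)` with the
Strong Arnold Property. -/
noncomputable def nu {n : ℕ} (G : SimpleGraph (Fin n)) : ℕ :=
  sSup {k : ℕ | ∃ A : Matrix (Fin n) (Fin n) ℝ, IsNuMatrix G A ∧ A.rank + k = n}

theorem le_nu_of_hasSap {n : ℕ} {G : SimpleGraph (Fin n)} {r : ℕ} (h : HasSap G r) :
    n - r ≤ nu G := by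
  obtain ⟨A, h1, h2, h3, h4⟩ := h
  have hr : A.rank ≤ n := by simpa using A.rank_le_width
  have h5 : n - A.rank ≤ nu G := by
    apply le_csSup
    · refine ⟨n, ?_⟩
      rintro k ⟨B, _, hB⟩
      omega
    · exact ⟨A, ⟨h1, h2, h3⟩, by omega⟩
  omega

open Classical in
/-- If every vertex of the nonempty set `S` has at least `d` neighbours in `S` and every vertex of
the nonempty set `T` has at least `e` neighbours of `Ḡ` in `T`, then `ν(G) + ν(Ḡ) ≥ d + e`.
In particular (`S = T =` all vertices) `ν(G) + ν(Ḡ) ≥ |G| - 1 - (Δ(G) - δ(G))`, which is at least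
`|G| - 2` whenever `Δ(G) ≤ δ(G) + 1`. -/
theorem result :
    (∀ (n : ℕ) (G : SimpleGraph (Fin n)) (S T : Finset (Fin n)) (d e : ℕ),
      S.Nonempty → T.Nonempty →
      (∀ x ∈ S, d ≤ (S.filter fun y => G.Adj x y).card) →
      (∀ x ∈ T, e ≤ (T.filter fun y => Gᶜ.Adj x y).card) →
      d + e ≤ nu G + nu Gᶜ) ∧
    (∀ (n : ℕ), 0 < n → ∀ G : SimpleGraph (Fin n),
      n + G.minDegree ≤ nu G + nu Gᶜ + 1 + G.maxDegree) := by
  refine ⟨?_, ?_⟩
  · intro n G S T d e hS hT hd he
    obtain ⟨h1, h2⟩ := core_sap (Fin n) G S d hS (by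
      intro x hx
      convert hd x hx)
    obtain ⟨h3, h4⟩ := core_sap (Fin n) Gᶜ T e hT (by
      intro x hx
      convert he x hx)
    rw [Fintype.card_fin] at h1 h2 h3 h4
    have e1 := le_nu_of_hasSap h1
    have e2 := le_nu_of_hasSap h3
    omega
  · intro n hn G
    haveI : Nonempty (Fin n) := ⟨⟨0, hn⟩⟩
    have h1 := le_nu_of_hasSap (sap_delta G)
    have h2 := le_nu_of_hasSap (sap_delta Gᶜ)
    have h3 := @minDegree_compl (Fin n) _ _ G (fun a b => Classical.propDecidable (G.Adj a b))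
      (fun a b => Classical.propDecidable (Gᶜ.Adj a b))
    rw [Fintype.card_fin] at h1 h2 h3
    have h4 : G.minDegree < n := by
      have := G.minDegree_lt_card
      rwa [Fintype.card_fin] at this
    have h5 := @SimpleGraph.minDegree_lt_card (Fin n) Gᶜ _
      (fun a b => Classical.propDecidable (Gᶜ.Adj a b)) _
    rw [Fintype.card_fin] at h5
    omega

end Pool.Agent.Results.MP_23961f_co.CoreBound
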